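import Pool.Agent.Run7.h225.HG.Sub

/-!
# Subtorsors which contain the periods of products of hypergeometric motives at almost all algebraic points

Let `α_1, …, α_n` be rational numbers which are not integers, `n ≥ 2`, `θ = z d/dz` and `Q(x) = ∏_j (x + α_j)`. We consider
the hypergeometric operators `θ^n - z Q(θ)`, with maximally unipotent monodromy at `z = 0`, the exponents `α_j` at infinity and
a pseudoreflection at `z = 1` of determinant `exp(2πi s)`, `s = ∑_j α_j`. Up to rational gauge transformations the equation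
depends only on the `α_j` modulo `ℤ`; we normalise them such that `s = 0` if `s` is an integer, `Q(-x) = Q(x)` if the equation
is self-dual and `n` is even, and `Q(-1-x) = -Q(x)` if it is self-dual and `n` is odd. The period matrices of the
corresponding families of motives at `z` near `0` are `A(z) Y(z) Ω` with the matrix `Y` of the derivatives of the Frobenius
solutions, `A` over a number field `(z)` and `Ω` constant (the periods of the limit). We take a finite list of such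
equations, with exponents at infinity which are pairwise different modulo `ℤ` and different from those of the dual equations
(and not both an equation of order `2` with a reflection of order two at `1` and a self-dual one of order `3`, see Clausen's
formula), so the direct sum of the motives at the same point `z`.

The theorem is about the second equality in the period conjecture, without any bound for the degree: for almost all tuples of
points `z_i = 1 / ξ_i`, where the `ξ_i` are algebraic integers of bounded degree, and for all number fields `K` of bounded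
degree at once, the smallest `K`-subtorsor which contains the period matrix of the direct sum of the motives at all these
points and of an arbitrary constant object is as large as the forms and the determinants allow. The proportion of the
exceptional tuples is a negative power of the bound for the conjugates if the parameters are fixed. In particular, all
parameters (the degrees of the number fields, the rank of the constant object, the number and the degree of the points, the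
number, the orders and the exponents of the equations) may grow with the bound for the conjugates.
-/

set_option autoImplicit false

open PowerSeries Pool.Agent.Y119.HZ Pool.Agent.Run7.h225.HG

namespace Pool.Agent.Run7.h225.Kept.SubtorsorsAlmostEverywhere

/-- A hypergeometric equation `θ^n f = z ∏_j (θ + α_j) f`. -/
structure Eqn where
  n : ℕ
  α : Fin n → ℚ

/-- the dual equation (the exponents at infinity are `-α_j`) -/
def Eqn.dual (e : Eqn) : Eqn := ⟨e.n, fun j => -e.α j⟩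

/-- the multiset of the fractional parts of the `α_j` -/
def Eqn.frac (e : Eqn) : Multiset ℚ := Multiset.map (fun j => Int.fract (e.α j)) Finset.univ.val

/-- the polynomial `Q = ∏_j (x + α_j)` -/
noncomputable def Eqn.poly (e : Eqn) : Polynomial ℚ := ∏ j, (Polynomial.X + Polynomial.C (e.α j))

/-- `Q(-x) = Q(x)` -/
def Eqn.Symplectic (e : Eqn) : Prop := e.poly.comp (-Polynomial.X) = e.poly

/-- `Q(-1-x) = -Q(x)` -/
def Eqn.Orthogonal (e : Eqn) : Prop := e.poly.comp (-(Polynomial.X + 1)) = -e.poly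

/-- The order is at least two, the exponents at infinity are not integers, their sum is `0` or not an integer, and either the
fractional parts of the `α_j` and of the `-α_j` are different multisets or `Q(-x) = Q(x)` or `Q(-1-x) = -Q(x)`. -/
def Eqn.Admissible (e : Eqn) : Prop :=
  2 ≤ e.n ∧ (∀ j, ∀ a : ℤ, e.α j ≠ a) ∧ (∑ j, e.α j = 0 ∨ ∀ a : ℤ, ∑ j, e.α j ≠ a) ∧
  (e.frac ≠ e.dual.frac ∨ e.Symplectic ∨ e.Orthogonal)

/-- The equations of a list are admissible, the exponents at infinity of different equations of the list, and of one of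
them and of the dual of another one, are different modulo `ℤ`, and the list does not contain both an equation of order two
such that `s = ∑_j α_j ≠ 0` and `2 s` is an integer and an equation of order three with `Q(-1-x) = -Q(x)`. -/
def Good {r : ℕ} (e : Fin r → Eqn) : Prop :=
  (∀ j, (e j).Admissible) ∧ (∀ i j, i ≠ j → (e i).frac ≠ (e j).frac ∧ (e i).frac ≠ (e j).dual.frac) ∧
  ∀ i j, (e i).n = 2 → (∃ a : ℤ, 2 * ∑ l, (e i).α l = a) → ∑ l, (e i).α l ≠ 0 → (e j).n = 3 → ¬ (e j).Orthogonal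

/-- the power series `k + ε` in the variable `ε` -/
noncomputable def shift (k : ℕ) : PowerSeries ℚ := C (k : ℚ) + X

/-- `a_k(ε) = ∏_{l < k} Q(l + ε) / (l + 1 + ε)^n`. The series `∑_k a_k(ε) z^(k + ε)` solves the equation
`(θ^n - z Q(θ)) f = ε^n z^ε`, hence its coefficients `f_j` at `ε^j` with `j < n` are solutions of the homogeneous
equation. -/
noncomputable def Eqn.frob (e : Eqn) (k : ℕ) : PowerSeries ℚ :=
  ∏ l ∈ Finset.range k, (Polynomial.aeval (shift l) e.poly * ((shift (l + 1))⁻¹) ^ e.n)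

/-- The matrix with the entries `(θ^i f_j)(z)` at `z = 1 / ξ`, where `f_j(z)` is the coefficient of `ε^j` in the series
`∑_k a_k(ε) z^(k + ε)`, `z^ε = ∑_a (log z)^a ε^a / a!`, with the value `-l` of `log z`, where `exp l = ξ`. -/
noncomputable def Eqn.Y (e : Eqn) (ξ l : ℂ) : Matrix (Fin e.n) (Fin e.n) ℂ :=
  Matrix.of fun i j => ∑ a ∈ Finset.range ((j : ℕ) + 1), (-l) ^ a / (a.factorial : ℂ) *
    ∑' k : ℕ, ((coeff ((j : ℕ) - a) (shift k ^ (i : ℕ) * e.frob k) : ℚ) : ℂ) * (1 / ξ) ^ k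

/-- The matrix of the alternating form: the entry `(i, j)` is `(-1)^i q_{i+j+1-n}` for `i + j + 1 ≥ n` and `0`
otherwise, where `q_l` are the coefficients of `Q`. -/
noncomputable def Eqn.J (e : Eqn) : Matrix (Fin e.n) (Fin e.n) ℂ :=
  Matrix.of fun i j => if e.n ≤ (i : ℕ) + j + 1 then (((-1) ^ (i : ℕ) * e.poly.coeff (i + j + 1 - e.n) : ℚ) : ℂ) else 0

/-- the polynomial `(Q(x) + Q(y)) / (x + y + 1)`, a polynomial in `y` with coefficients in `ℚ[x]` -/
noncomputable def lagrange (Q : Polynomial ℚ) : Polynomial (Polynomial ℚ) :=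
  (Polynomial.C Q + Q.map Polynomial.C) /ₘ (Polynomial.X + Polynomial.C (Polynomial.X + 1))

/-- The matrix of the symmetric form on the fibre at `z`: the entry `(i, j)` is the coefficient of `x^i y^j` in
`(x^n + y^n) / (x + y) - z (Q(x) + Q(y)) / (x + y + 1)`. -/
noncomputable def Eqn.B (e : Eqn) (z : ℂ) : Matrix (Fin e.n) (Fin e.n) ℂ :=
  Matrix.of fun i j => (if (i : ℕ) + j + 1 = e.n then (-1) ^ (i : ℕ) else 0) -
    z * ((((lagrange e.poly).coeff j).coeff i : ℚ) : ℂ)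

/-- The torsor of the equation at `z`: the matrices `X` with `det X = (1 - z)^(-s)` (principal branch), `s = ∑_j α_j`, and
`Xᵀ J X = J` if `Q(-x) = Q(x)`, and `Xᵀ B(z) X = B(0)` if `Q(-1-x) = -Q(x)`. -/
def Eqn.T (e : Eqn) (z : ℂ) : Set (Matrix (Fin e.n) (Fin e.n) ℂ) :=
  {X | X.det = Complex.exp (-((∑ j, e.α j : ℚ) : ℂ) * Complex.log (1 - z)) ∧
    (e.Symplectic → X.transpose * e.J * X = e.J) ∧ (e.Orthogonal → X.transpose * e.B z * X = e.B 0)}

/-- the index set: `m` constants and the blocks `(i, j)` with `i < k`, `j < r` -/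
abbrev Index {r : ℕ} (e : Fin r → Eqn) (k m : ℕ) : Type := Fin m ⊕ Σ p : Fin k × Fin r, Fin (e p.2).n

/-- the block matrix `C ⊕ ⨁_ij X_ij` -/
noncomputable def blocks {r k m : ℕ} {e : Fin r → Eqn} (C : Matrix (Fin m) (Fin m) ℂ)
    (X : Fin k → ∀ j, Matrix (Fin (e j).n) (Fin (e j).n) ℂ) : Matrix (Index e k m) (Index e k m) ℂ :=
  Matrix.fromBlocks C 0 0 (Matrix.blockDiagonal' fun p : Fin k × Fin r => X p.1 p.2)

/-- `T` is the set of the complex points of a `K`-subtorsor of `GL_N`: the set of the invertible zeros of a family of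
polynomials with coefficients in `K`, with `x y⁻¹ z ∈ T` for all `x, y, z ∈ T`. -/
def Subtorsor {N : Type} [Fintype N] [DecidableEq N] (K : IntermediateField ℚ ℂ) (T : Set (Matrix N N ℂ)) : Prop :=
  (∃ I : Set (MvPolynomial (N × N) K), T = {x | IsUnit x ∧ ∀ p ∈ I, MvPolynomial.aeval (fun b => x b.1 b.2) p = 0}) ∧
  ∀ x ∈ T, ∀ y ∈ T, ∀ z ∈ T, x * y⁻¹ * z ∈ T

/-- Each subtorsor `T` over `K` which contains `C ⊕ ⨁ Y_j(1 / ξ_i) Ω_ij` contains `C ⊕ ⨁ X_ij Ω_ij` for all
`X_ij ∈ T_j(1 / ξ_i)`. -/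
def Full {r k m : ℕ} (e : Fin r → Eqn) (C : Matrix (Fin m) (Fin m) ℂ)
    (Ω : Fin k → ∀ j, Matrix (Fin (e j).n) (Fin (e j).n) ℂ) (ξ l : Fin k → ℂ) (K : IntermediateField ℚ ℂ) : Prop :=
  ∀ T : Set (Matrix (Index e k m) (Index e k m) ℂ), Subtorsor K T →
    blocks C (fun i j => (e j).Y (ξ i) (l i) * Ω i j) ∈ T →
    ∀ X : Fin k → ∀ j, Matrix (Fin (e j).n) (Fin (e j).n) ℂ, (∀ i j, X i j ∈ (e j).T (1 / ξ i)) →
      blocks C (fun i j => X i j * Ω i j) ∈ T

/-- The motivic torsor of `ℚ(-1) ⊕ ⨁ M_j(z_i)` (for motives of weight `w_j`): the matrices `t ⊕ ⨁ X_ij` with a number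
`t ≠ 0` and matrices `X_ij` with `det X_ij = c_ij t^(m_j)` and, if the equation `e_j` is self-dual, which carry the form `J_j`
resp. `B_j(z_i)` to `t^(w_j) S_j`. -/
def Motivic {r k : ℕ} (e : Fin r → Eqn) (w m : Fin r → ℤ) (S : ∀ j, Matrix (Fin (e j).n) (Fin (e j).n) ℂ)
    (c : Fin k → Fin r → ℂ) (z : Fin k → ℂ) : Set (Matrix (Index e k 1) (Index e k 1) ℂ) :=
  {y | ∃ (t : ℂ) (X : Fin k → ∀ j, Matrix (Fin (e j).n) (Fin (e j).n) ℂ), t ≠ 0 ∧ y = blocks (t • 1) X ∧
    ∀ i j, (X i j).det = c i j * t ^ m j ∧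
      ((e j).Symplectic → (X i j).transpose * (e j).J * X i j = t ^ w j • S j) ∧
      ((e j).Orthogonal → (X i j).transpose * (e j).B (z i) * X i j = t ^ w j • S j)}

/-- Every subtorsor over `K` which contains `2 π i ⊕ ⨁ Y_j(1 / ξ_i) Ω_ij` and is contained in a torsor `Motivic` is equal
to this torsor. -/
def Absolute {r k : ℕ} (e : Fin r → Eqn) (Ω : Fin k → ∀ j, Matrix (Fin (e j).n) (Fin (e j).n) ℂ) (ξ l : Fin k → ℂ)
    (K : IntermediateField ℚ ℂ) : Prop :=
  ∀ (w m : Fin r → ℤ) (S : ∀ j, Matrix (Fin (e j).n) (Fin (e j).n) ℂ) (c : Fin k → Fin r → ℂ)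
    (T : Set (Matrix (Index e k 1) (Index e k 1) ℂ)), Subtorsor K T →
    blocks ((2 * Real.pi * Complex.I) • 1) (fun i j => (e j).Y (ξ i) (l i) * Ω i j) ∈ T →
    T ⊆ Motivic e w m S c (fun i => 1 / ξ i) → T = Motivic e w m S c fun i => 1 / ξ i

/-- `ξ` is an algebraic integer of degree at most `g` all of whose conjugates have absolute value at most `T` -/
def House (g T : ℕ) (ξ : ℂ) : Prop :=
  IsIntegral ℤ ξ ∧ (minpoly ℚ ξ).natDegree ≤ g ∧ ∀ z : ℂ, Polynomial.aeval z (minpoly ℚ ξ) = 0 → ‖z‖ ≤ T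

/-- The `ξ_i` have absolute value `> 1`, and there are values `l_i` of their logarithms and a number field `K` of degree
`≤ d` such that one of the two statements on the `K`-subtorsors (of any degree) is false. -/
def Exceptional {r k m : ℕ} (d : ℕ) (e : Fin r → Eqn) (C : Matrix (Fin m) (Fin m) ℂ)
    (Ω : Fin k → ∀ j, Matrix (Fin (e j).n) (Fin (e j).n) ℂ) (ξ : Fin k → ℂ) : Prop :=
  (∀ i, 1 < ‖ξ i‖) ∧ ∃ l : Fin k → ℂ, (∀ i, Complex.exp (l i) = ξ i) ∧
    ∃ K : IntermediateField ℚ ℂ, FiniteDimensional ℚ K ∧ Module.finrank ℚ K ≤ d ∧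
      ¬ (Full e C Ω ξ l K ∧ Absolute e Ω ξ l K)

/-- the order of the equation and the numerators and the denominators of its exponents are at most `B` -/
def Eqn.Size (e : Eqn) (B : ℕ) : Prop := e.n ≤ B ∧ ∀ j, |(e.α j).num| ≤ B ∧ (e.α j).den ≤ B

/-- For every complex matrix `C` with `m` rows and all complex matrices `Ω_ij` the number of exceptional `k`-tuples (for number
fields of degree `≤ d`) of algebraic integers of degree `≤ g` with conjugates of size `≤ T` is at most `ε N^k`, where `N` is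
the number of all these algebraic integers. -/
def Bound {r : ℕ} (k g d m : ℕ) (e : Fin r → Eqn) (T : ℕ) (ε : ℝ) : Prop :=
  ∀ (C : Matrix (Fin m) (Fin m) ℂ) (Ω : Fin k → ∀ j, Matrix (Fin (e j).n) (Fin (e j).n) ℂ),
    {ξ : Fin k → ℂ | (∀ i, House g T (ξ i)) ∧ Exceptional d e C Ω ξ}.Finite ∧
    (({ξ : Fin k → ℂ | (∀ i, House g T (ξ i)) ∧ Exceptional d e C Ω ξ}.ncard : ℕ) : ℝ) ≤
      ε * (({ξ : ℂ | House g T ξ}.ncard : ℕ) : ℝ) ^ k

theorem frob_eq (e : Eqn) (k : ℕ) : e.frob k = Pool.Agent.Y119.HY.aq e.n e.poly k := rfl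

theorem J_eq (e : Eqn) : e.J = Pool.Agent.Y119.HY.cm (Pool.Agent.Y119.HY.Jm e.n e.poly) := by
  ext i j
  rw [Pool.Agent.Y119.HY.cm_apply]
  unfold Eqn.J Pool.Agent.Y119.HY.Jm
  rw [Matrix.of_apply, Matrix.of_apply]
  split_ifs
  · rfl
  · simp

theorem B_eq (e : Eqn) (z : ℂ) : e.B z = Run7.h893.HO.Bz (Pool.Agent.Y119.HY.cm (Run7.h893.HO.J0m e.n))
    (Pool.Agent.Y119.HY.cm (Run7.h893.HO.J1m e.n e.poly)) z := by
  ext i j
  unfold Eqn.B Run7.h893.HO.Bz
  rw [Matrix.of_apply, Matrix.sub_apply, Matrix.smul_apply, Pool.Agent.Y119.HY.cm_apply, Pool.Agent.Y119.HY.cm_apply,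
    smul_eq_mul]
  congr 1
  unfold Run7.h893.HO.J0m
  rw [Matrix.of_apply]
  split_ifs
  · push_cast
    rfl
  · rw [Rat.cast_zero]

theorem Y_eq (e : Eqn) (ξ l : ℂ) : e.Y ξ l = Pool.Agent.Y119.HY.Hf (Pool.Agent.Y119.HY.Hc e.n e.poly) (1 / ξ) *
    Pool.Agent.Y119.HY.E (Pool.Agent.Y119.HY.cm (Pool.Agent.Y119.HY.Am e.n)) (-l) := by
  ext i j
  unfold Eqn.Y
  rw [Matrix.of_apply, Matrix.mul_apply]
  have hE : ∀ c : Fin e.n, Pool.Agent.Y119.HY.E (Pool.Agent.Y119.HY.cm (Pool.Agent.Y119.HY.Am e.n))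
      (-l) c j = ∑ a ∈ Finset.range e.n, if (j : ℕ) = c + a then (-l) ^ a / (a.factorial : ℂ) else 0 := by
    intro c
    unfold Pool.Agent.Y119.HY.E
    rw [Matrix.sum_apply]
    refine Finset.sum_congr rfl fun a _ => ?_
    rw [Matrix.smul_apply, ← Pool.Agent.Y119.HY.cm_pow, Pool.Agent.Y119.HY.cm_apply, Pool.Agent.Y119.HY.Am_pow, smul_eq_mul]
    split_ifs
    · push_cast
      ring
    · simp
  simp only [hE, Finset.mul_sum]
  rw [Finset.sum_comm]
  have hsub : Finset.range ((j : ℕ) + 1) ⊆ Finset.range e.n := by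
    intro a ha
    rw [Finset.mem_range] at ha ⊢
    have := j.2
    omega
  refine Finset.sum_subset_zero_on_sdiff hsub (fun a ha => ?_) fun a ha => ?_
  · rw [Finset.mem_sdiff, Finset.mem_range, Finset.mem_range] at ha
    refine Finset.sum_eq_zero fun c _ => ?_
    rw [if_neg (by omega), mul_zero]
  · rw [Finset.mem_range] at ha
    have hj := j.2
    rw [Finset.sum_eq_single (⟨(j : ℕ) - a, by omega⟩ : Fin e.n)]
    · rw [if_pos (by simp only; omega), mul_comm]
      congr 1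
    · intro c _ hc
      rw [if_neg, mul_zero]
      intro h
      apply hc
      apply Fin.ext
      simp only
      omega
    · intro h
      exact absurd (Finset.mem_univ _) h

theorem types {r : ℕ} {e : Fin r → Eqn} (he : Good e) : ∃ W, JU (fun j => (e j).n) (fun j => (e j).poly) W :=
  JU_QA (n := fun j => (e j).n) (α := fun j => (e j).α) (fun j => (he.1 j).1) (fun j => (he.1 j).2.1)
    (fun j => (he.1 j).2.2.1) (fun j => (he.1 j).2.2.2) (fun i j hij => he.2.1 i j hij) he.2.2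

theorem T_eq {e : Eqn} (he : e.Admissible) (z : ℂ) : e.T z = TU e.n e.poly (Complex.log (1 - z)) z := by
  have h1 : e.poly.coeff (e.n - 1) = ∑ j, e.α j := QA_coeff (by have := he.1; omega) e.α
  have hQ := QG_QA he.1 (nonint he.2.1)
  have hB : e.B 0 = Pool.Agent.Y119.HY.cm (Run7.h893.HO.J0m e.n) := by
    rw [B_eq]
    unfold Run7.h893.HO.Bz
    rw [zero_smul, sub_zero]
  ext X
  unfold Eqn.T TU
  rw [h1, J_eq, hB, B_eq]
  refine and_congr_right fun _ => and_congr ⟨fun h h2 => h ?_, fun h h2 => h ?_⟩ ⟨fun h h2 => h h2.sym, fun h h2 => h ?_⟩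
  · exact even_of_QD h2
  · exact QD_of_even hQ h2
  · exact QO_of_comp he.1 (nonint he.2.1) h2

theorem mem_T {e : Eqn} (he : e.Admissible) {ξ l : ℂ} (hξ : 1 < ‖ξ‖) : e.Y ξ l ∈ e.T (1 / ξ) := by
  rw [T_eq he, Y_eq]
  refine mem_TU (QG_QA he.1 (nonint he.2.1)) ?_ _
  rw [norm_div, norm_one, div_lt_one (by linarith)]
  exact hξ

theorem sub_of {N : Type} [Fintype N] [DecidableEq N] {K : IntermediateField ℚ ℂ} {T : Set (Matrix N N ℂ)}
    (hT : Subtorsor K T) : Pool.Agent.TH127.PT.IsSubtorsor K.toSubfield T := by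
  obtain ⟨⟨I, hI⟩, h⟩ := hT
  refine ⟨fun x hx => ?_, h, ⟨MvPolynomial.map (algebraMap K ℂ) '' I, ?_, fun x => ?_⟩⟩
  · rw [hI] at hx
    exact hx.1
  · rintro _ ⟨p, -, rfl⟩ m
    rw [MvPolynomial.coeff_map]
    exact (p.coeff m).2
  · have h1 : ∀ p : MvPolynomial (N × N) K, MvPolynomial.eval (fun b => x b.1 b.2) (MvPolynomial.map (algebraMap K ℂ) p) =
        MvPolynomial.aeval (fun b => x b.1 b.2) p := fun p => by
      rw [MvPolynomial.eval_map, MvPolynomial.aeval_def]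
    rw [hI]
    constructor
    · rintro ⟨h2, h3⟩
      refine ⟨h2, ?_⟩
      rintro _ ⟨p, hp, rfl⟩
      rw [h1]
      exact h3 p hp
    · rintro ⟨h2, h3⟩
      refine ⟨h2, fun p hp => ?_⟩
      rw [← h1]
      exact h3 _ ⟨p, hp, rfl⟩

theorem fin_of {K : IntermediateField ℚ ℂ} (h : FiniteDimensional ℚ K) :
    FiniteDimensional ℚ K.toSubfield ∧ Module.finrank ℚ K.toSubfield = Module.finrank ℚ K := by
  let f : K ≃+ K.toSubfield := AddEquiv.refl _
  let f' : K ≃ₗ[ℚ] K.toSubfield := f.toLinearEquiv (fun c x => map_rat_smul f c x)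
  exact ⟨Module.Finite.equiv f', f'.finrank_eq.symm⟩

theorem alg_of {K : IntermediateField ℚ ℂ} (h : FiniteDimensional ℚ K) : ∀ x ∈ K.toSubfield, IsAlgebraic ℚ x := by
  intro x hx
  have h1 : IsAlgebraic ℚ (⟨x, hx⟩ : K) := Algebra.IsAlgebraic.isAlgebraic _
  exact h1.algebraMap (A := ℂ)

/-- **the subtorsors at one point** -/
theorem point_sub {r k m d₀ d : ℕ} {e : Fin r → Eqn} (he : Good e) {C : Matrix (Fin m) (Fin m) ℂ}
    {Ω : Fin k → ∀ j, Matrix (Fin (e j).n) (Fin (e j).n) ℂ} {ξ l : Fin k → ℂ} {V : Submodule ℚ ℂ}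
    (hd : ∀ (B₀ : Type) [Fintype B₀] [DecidableEq B₀] (ι : Type) [Fintype ι]
      [DecidableEq ι] (n : ι → ℕ), Fintype.card (Sub.IG B₀ n) ≤ (m + 1) + ∑ p : Fin k × Fin r, (e p.2).n →
      ∀ (C₀ : Matrix B₀ B₀ ℂ)
      (Y F : ∀ i, Matrix (Fin (n i)) (Fin (n i)) ℂ), (∀ i, Pool.Agent.Y123.GN.Clf (F i)) →
      (∀ g : ∀ i, (Matrix (Fin (n i)) (Fin (n i)) ℂ)ˣ, (∀ i, g i ∈ Pool.Agent.Y123.GN.GB (F i)) →
        Pool.Agent.Y123.GN.Rl ⊥ d₀ (Sub.EG C₀ Y) (Sub.EG C₀ fun i => (g i : Matrix (Fin (n i)) (Fin (n i)) ℂ) * Y i)) →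
      ∀ K : Subfield ℂ, FiniteDimensional ℚ K → Module.finrank ℚ K ≤ d →
        ∀ T : Set (Matrix (Sub.IG B₀ n) (Sub.IG B₀ n) ℂ),
      Pool.Agent.TH127.PT.IsSubtorsor K T → Sub.EG C₀ Y ∈ T →
        ∀ g : ∀ i, (Matrix (Fin (n i)) (Fin (n i)) ℂ)ˣ, (∀ i, g i ∈ Pool.Agent.Y123.GN.GB (F i)) →
        ∀ x ∈ T, Sub.EG 1 (fun i => (g i : Matrix (Fin (n i)) (Fin (n i)) ℂ)) * x ∈ T)
    (hKW : ∀ a ∈ (⊥ : Subfield ℂ), a ∈ V) (hCV : ∀ a b, C a b ∈ V) (hpi : (2 * Real.pi * Complex.I : ℂ) ∈ V)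
    (hξ : ∀ i, 1 < ‖ξ i‖)
    (hrel : ∀ P : MvPolynomial (Cj (fun j => (e j).n) k) ℂ, P.totalDegree ≤ d₀ → (∀ s, P.coeff s ∈ V ^ (d₀ + 1)) →
      MvPolynomial.aeval (pjc (n := fun j => (e j).n) l (fun i j => (e j).Y (ξ i) (l i) * Ω i j)) P = 0 →
      ∀ X : Fin k → ∀ j, Matrix (Fin (e j).n) (Fin (e j).n) ℂ, (∀ i j, X i j ∈ (e j).T (1 / ξ i)) →
      MvPolynomial.aeval (pjc (n := fun j => (e j).n) l (fun i j => X i j * Ω i j)) P = 0)
    {K : IntermediateField ℚ ℂ} (hKf : FiniteDimensional ℚ K) (hKd : Module.finrank ℚ K ≤ d) :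
    Full e C Ω ξ l K ∧ Absolute e Ω ξ l K := by
  classical
  have hY : ∀ p : Fin k × Fin r, (e p.2).Y (ξ p.1) (l p.1) ∈ TU (e p.2).n (e p.2).poly (Complex.log (1 - 1 / ξ p.1))
      (1 / ξ p.1) := fun p => by
    rw [← T_eq (he.1 p.2)]
    exact mem_T (he.1 p.2) (hξ p.1)
  choose F hF hFG using fun p => Sub.form_G (hY p)
  -- the relations
  have hRl : ∀ (m' : ℕ) (C : Matrix (Fin m') (Fin m') ℂ), (∀ a b, C a b ∈ V) →
      ∀ g : ∀ p : Fin k × Fin r, (Matrix (Fin (e p.2).n) (Fin (e p.2).n) ℂ)ˣ,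
      (∀ p, g p ∈ Pool.Agent.Y123.GN.GB (F p)) →
      Pool.Agent.Y123.GN.Rl ⊥ d₀ (Sub.EG C fun p : Fin k × Fin r => (e p.2).Y (ξ p.1) (l p.1) * Ω p.1 p.2)
        (Sub.EG C fun p : Fin k × Fin r => (g p : Matrix (Fin (e p.2).n) (Fin (e p.2).n) ℂ) *
          ((e p.2).Y (ξ p.1) (l p.1) * Ω p.1 p.2)) := by
    intro m' C hC g hg
    let Φ : Sub.IG (Fin m') (fun p : Fin k × Fin r => (e p.2).n) × Sub.IG (Fin m') (fun p : Fin k × Fin r => (e p.2).n) →
        MvPolynomial (Cj (fun j => (e j).n) k) ℂ := fun b =>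
      (Matrix.fromBlocks (C.map MvPolynomial.C) 0 0 (Matrix.blockDiagonal' fun p : Fin k × Fin r =>
        Matrix.of fun a b => MvPolynomial.X ⟨p.1, some ⟨p.2, (a, b)⟩⟩)) b.1 b.2
    have hΦ : ∀ b, Pool.Agent.Y113.DC 1 V (Φ b) := by
      rintro ⟨a | ⟨i, a⟩, b | ⟨j, b⟩⟩
      · exact Pool.Agent.Y123.GN.DCC (hC a b)
      · exact Pool.Agent.Y123.GN.DC0
      · exact Pool.Agent.Y123.GN.DC0
      · show Pool.Agent.Y113.DC 1 V ((Matrix.blockDiagonal' fun p : Fin k × Fin r =>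
          (Matrix.of fun a b => MvPolynomial.X ⟨p.1, some ⟨p.2, (a, b)⟩⟩ :
            Matrix (Fin (e p.2).n) (Fin (e p.2).n) (MvPolynomial (Cj (fun j => (e j).n) k) ℂ))) ⟨i, a⟩ ⟨j, b⟩)
        by_cases h : i = j
        · subst h
          rw [Matrix.blockDiagonal'_apply_eq]
          exact Pool.Agent.Y123.GN.DCX (hKW 1 (⊥ : Subfield ℂ).one_mem) _
        · rw [Matrix.blockDiagonal'_apply_ne _ _ _ h]
          exact Pool.Agent.Y123.GN.DC0
    have hev : ∀ (Z : Fin k → ∀ j, Matrix (Fin (e j).n) (Fin (e j).n) ℂ) (b), Pool.Agent.Y123.ST.fl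
        (Sub.EG C fun p : Fin k × Fin r => Z p.1 p.2) b =
        MvPolynomial.aeval (pjc (n := fun j => (e j).n) l Z) (Φ b) := by
      rintro Z ⟨a | ⟨i, a⟩, b | ⟨j, b⟩⟩
      · show C a b = MvPolynomial.aeval _ (MvPolynomial.C (C a b))
        rw [MvPolynomial.aeval_C]
        rfl
      · show (0 : ℂ) = MvPolynomial.aeval _ 0
        rw [map_zero]
      · show (0 : ℂ) = MvPolynomial.aeval _ 0
        rw [map_zero]
      · show Matrix.blockDiagonal' (fun p : Fin k × Fin r => Z p.1 p.2) ⟨i, a⟩ ⟨j, b⟩ =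
          MvPolynomial.aeval (pjc (n := fun j => (e j).n) l Z) ((Matrix.blockDiagonal' fun p : Fin k × Fin r =>
          (Matrix.of fun a b => MvPolynomial.X ⟨p.1, some ⟨p.2, (a, b)⟩⟩ :
            Matrix (Fin (e p.2).n) (Fin (e p.2).n) (MvPolynomial (Cj (fun j => (e j).n) k) ℂ))) ⟨i, a⟩ ⟨j, b⟩)
        by_cases h : i = j
        · subst h
          rw [Matrix.blockDiagonal'_apply_eq, Matrix.blockDiagonal'_apply_eq]
          show Z i.1 i.2 a b = MvPolynomial.aeval _ (MvPolynomial.X _)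
          rw [MvPolynomial.aeval_X]
          rfl
        · rw [Matrix.blockDiagonal'_apply_ne _ _ _ h, Matrix.blockDiagonal'_apply_ne _ _ _ h, map_zero]
    refine Pool.Agent.Y123.GN.Rl_of (W := V) hKW (Φ := Φ) hΦ
      (y := pjc (n := fun j => (e j).n) l (fun i j => (e j).Y (ξ i) (l i) * Ω i j))
      (y' := pjc (n := fun j => (e j).n) l
        (fun i j => ((g (i, j) : Matrix (Fin (e j).n) (Fin (e j).n) ℂ) * (e j).Y (ξ i) (l i)) * Ω i j))
      (fun P hPd hPc hP0 => hrel P hPd hPc hP0 _ fun i j => ?_)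
      (fun b => hev (fun i j => (e j).Y (ξ i) (l i) * Ω i j) b) fun b => ?_
    · obtain ⟨h5, h6, h7⟩ := (hFG (i, j) (g (i, j))).1 (hg (i, j))
      rw [T_eq (he.1 j)]
      exact Sub.T_act (hY (i, j)) h5 h6 h7
    · rw [← hev]
      congr 2
      funext p
      show _ = ((g (p.1, p.2) : Matrix (Fin (e p.2).n) (Fin (e p.2).n) ℂ) * (e p.2).Y (ξ p.1) (l p.1)) * Ω p.1 p.2
      rw [Matrix.mul_assoc]
  -- the stability
  have stable : ∀ (m' : ℕ), m' ≤ m + 1 → ∀ C : Matrix (Fin m') (Fin m') ℂ, (∀ a b, C a b ∈ V) →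
      ∀ T : Set (Matrix (Index e k m') (Index e k m') ℂ), Subtorsor K T →
      blocks C (fun i j => (e j).Y (ξ i) (l i) * Ω i j) ∈ T →
      ∀ g : ∀ p : Fin k × Fin r, (Matrix (Fin (e p.2).n) (Fin (e p.2).n) ℂ)ˣ,
      (∀ p, g p ∈ Pool.Agent.Y123.GN.GB (F p)) → ∀ y ∈ T,
        Sub.EG 1 (fun p => (g p : Matrix (Fin (e p.2).n) (Fin (e p.2).n) ℂ)) * y ∈ T := by
    intro m' hm' C hC T hT hc g hg
    refine hd (Fin m') (Fin k × Fin r) (fun p => (e p.2).n) ?_ C
      (fun p : Fin k × Fin r => (e p.2).Y (ξ p.1) (l p.1) * Ω p.1 p.2) F hF (hRl m' C hC) K.toSubfield (fin_of hKf).1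
      ((fin_of hKf).2.le.trans hKd) T (sub_of hT) hc g hg
    rw [Sub.card_IG, Fintype.card_fin]
    omega
  refine ⟨?_, ?_⟩
  · intro T hT hc X hX
    have hdet : ∀ p : Fin k × Fin r, ((e p.2).Y (ξ p.1) (l p.1)).det ≠ 0 := fun p => by
      rw [(hY p).1]
      exact Complex.exp_ne_zero _
    have hXd : ∀ p : Fin k × Fin r, (X p.1 p.2).det = ((e p.2).Y (ξ p.1) (l p.1)).det := fun p => by
      have h5 := hX p.1 p.2
      rw [T_eq (he.1 p.2)] at h5
      rw [h5.1, (hY p).1]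
    choose g hg1 hg2 hg3 using fun p => Sub.quot_G (hdet p) (hXd p)
    have h5 := stable m (by omega) C hCV T hT hc g (fun p => (hFG p (g p)).2 ⟨hg1 p, fun hD => hg3 p _ ?_,
      fun hO => hg3 p _ ?_⟩) _ hc
    · have h6 : Sub.EG 1 (fun p => (g p : Matrix (Fin (e p.2).n) (Fin (e p.2).n) ℂ)) *
          blocks C (fun i j => (e j).Y (ξ i) (l i) * Ω i j) = blocks C (fun i j => X i j * Ω i j) := by
        show Sub.EG 1 _ * Sub.EG C (fun p : Fin k × Fin r => (e p.2).Y (ξ p.1) (l p.1) * Ω p.1 p.2) = Sub.EG C _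
        rw [Sub.EG_mul, Matrix.one_mul]
        congr 1
        funext p
        rw [← Matrix.mul_assoc, hg2 p]
      rw [h6] at h5
      exact h5
    · have h6 := hX p.1 p.2
      rw [T_eq (he.1 p.2)] at h6
      rw [h6.2.1 hD, (hY p).2.1 hD]
    · have h6 := hX p.1 p.2
      rw [T_eq (he.1 p.2)] at h6
      rw [h6.2.2 hO, (hY p).2.2 hO]
  · intro w' m' S' c T hT hc hTM
    refine Set.Subset.antisymm hTM ?_
    rintro _ ⟨t, X, ht, rfl, hX⟩
    have htpi : Pool.Agent.Y123.GN.tpi = 2 * Real.pi * Complex.I := rfl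
    have hc' : Sub.EG (Pool.Agent.Y123.GN.tpi • (1 : Matrix (Fin 1) (Fin 1) ℂ))
        (fun p : Fin k × Fin r => (e p.2).Y (ξ p.1) (l p.1) * Ω p.1 p.2) ∈ T := hc
    have hTs := sub_of hT
    obtain ⟨X', hX'⟩ := Sub.tate_all (alg_of hKf) hTs hc' ht
    obtain ⟨t', X'', ht', hXX, hX''⟩ := hTM hX'
    obtain ⟨h5, h6⟩ := Sub.EG_inj (y := t' • (1 : Matrix (Fin 1) (Fin 1) ℂ))
      (Y := fun p : Fin k × Fin r => X'' p.1 p.2) hXX
    have h7 : t = t' := Sub.smul_one_inj h5
    subst h7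
    subst h6
    have hdet : ∀ p : Fin k × Fin r, (X'' p.1 p.2).det ≠ 0 := fun p =>
      ((Matrix.isUnit_iff_isUnit_det _).1 (Sub.EG_block_unit (hTs.isUnit _ hX') p)).ne_zero
    have hXd : ∀ p : Fin k × Fin r, (X p.1 p.2).det = (X'' p.1 p.2).det := fun p => by
      rw [(hX p.1 p.2).1, (hX'' p.1 p.2).1]
    choose g hg1 hg2 hg3 using fun p => Sub.quot_G (hdet p) (hXd p)
    have hC : ∀ a b, (((2 * Real.pi * Complex.I : ℂ)) • (1 : Matrix (Fin 1) (Fin 1) ℂ)) a b ∈ V := by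
      intro a b
      have h8 : a = b := Subsingleton.elim _ _
      subst h8
      rw [Matrix.smul_apply, Matrix.one_apply_eq, smul_eq_mul, mul_one]
      exact hpi
    have h9 := stable 1 (by omega) _ hC T hT hc g (fun p => (hFG p (g p)).2 ⟨hg1 p, fun hD => hg3 p _ ?_,
      fun hO => hg3 p _ ?_⟩) _ hX'
    · have h10 : Sub.EG 1 (fun p => (g p : Matrix (Fin (e p.2).n) (Fin (e p.2).n) ℂ)) *
          Sub.EG (t • (1 : Matrix (Fin 1) (Fin 1) ℂ)) (fun p : Fin k × Fin r => X'' p.1 p.2) =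
          blocks (t • 1) (fun i j => X i j) := by
        rw [Sub.EG_mul, Matrix.one_mul]
        show Sub.EG _ _ = Sub.EG _ (fun p : Fin k × Fin r => X p.1 p.2)
        congr 1
        funext p
        exact hg2 p
      rw [h10] at h9
      exact h9
    · have h11 := (hX p.1 p.2).2.1 (even_of_QD hD)
      have h12 := (hX'' p.1 p.2).2.1 (even_of_QD hD)
      rw [J_eq] at h11 h12
      exact h11.trans h12.symm
    · have h11 := (hX p.1 p.2).2.2 hO.sym
      have h12 := (hX'' p.1 p.2).2.2 hO.sym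
      rw [B_eq] at h11 h12
      exact h11.trans h12.symm

theorem fixed {r : ℕ} (e : Fin r → Eqn) (he : Good e) (k g d m : ℕ) (hg : 1 ≤ g) :
    ∃ c C : ℝ, 0 < c ∧ ∀ T : ℕ, 1 ≤ T → Bound k g d m e T (C * (T : ℝ) ^ (-c)) := by
  classical
  obtain ⟨W', hJ⟩ := types he
  obtain ⟨d₀, hd⟩ := Sub.stab_point ((m + 1) + ∑ p : Fin k × Fin r, (e p.2).n) d
  obtain ⟨c, hc, C', hC', h1⟩ := tup_joint (tg hJ) p_GFS p_TUPA hJ k g d₀ 1 ((m * m + 3) ^ (d₀ + 1)) hg
  refine ⟨c, C', hc, fun T hT C Ω => ?_⟩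
  obtain ⟨hbf, hb1⟩ := Pool.Agent.Y123.GN.bot_fin
  obtain ⟨W, hW1, hW2, hKW, hW3⟩ := Pool.Agent.Y123.GN.exists_W' (⊥ : Subfield ℂ)
    (fun o : Option (Fin m × Fin m) => o.elim (2 * Real.pi * Complex.I) fun b => C b.1 b.2)
  obtain ⟨hp1, hp2⟩ := Pool.Agent.Y113.finrank_pow_le W (d₀ + 1)
  have hWD : Module.finrank ℚ W ≤ m * m + 3 := by
    refine hW2.trans ?_
    rw [Fintype.card_option, Fintype.card_prod, Fintype.card_fin]
    omega
  obtain ⟨h2, h3⟩ := h1 (W ^ (d₀ + 1)) hp1 (hp2.trans (Nat.pow_le_pow_left hWD _)) Ω T hT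
  have hsub : {ξ : Fin k → ℂ | (∀ i, House g T (ξ i)) ∧ Exceptional d e C Ω ξ} ⊆
      {α : Fin k → ℂ | (∀ i, Pool.Agent.Y916.Sl.SInt g T (α i)) ∧
        ExcJ (fun j => (e j).n) (fun j => (e j).poly) d₀ 1 (W ^ (d₀ + 1)) Ω α} := by
    rintro ξ ⟨hξ, hξ1, l, hl, K, hKf, hKd, hbad⟩
    refine ⟨fun i => hξ i, ?_⟩
    by_contra hne
    refine hbad (point_sub he hd hKW (fun a b => hW3 (some (a, b))) (hW3 none) hξ1 (fun P hPd hPc hP0 X hX => ?_) hKf hKd)
    by_contra hX0
    refine hne ⟨l, hl, ⊥, inferInstance, (by rw [IntermediateField.finrank_bot]), P, hPd,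
      fun s => Submodule.subset_span (hPc s), ?_, l, X, fun i j => ?_, hX0⟩
    · simp only [Y_eq] at hP0
      exact hP0
    · rw [← T_eq (he.1 j)]
      exact hX i j
  refine ⟨h2.subset hsub, le_trans ?_ h3⟩
  exact_mod_cast Set.ncard_le_ncard hsub h2

theorem diag {F : ℕ → ℕ → Prop} (h0 : ∀ T, F 0 T) (h : ∀ w, ∀ᶠ T in Filter.atTop, F w T) :
    ∃ w : ℕ → ℕ, Filter.Tendsto w Filter.atTop Filter.atTop ∧ ∀ T, F (w T) T := by
  classical
  have h1 : ∀ w, ∃ T₀, ∀ T, T₀ ≤ T → F w T := fun w => Filter.eventually_atTop.1 (h w)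
  choose T₀ hT₀ using h1
  refine ⟨fun T => Nat.findGreatest (fun w => T₀ w ≤ T) T, ?_, fun T => ?_⟩
  · rw [Filter.tendsto_atTop]
    intro b
    filter_upwards [Filter.eventually_ge_atTop (max b (T₀ b))] with T hT
    exact Nat.le_findGreatest ((le_max_left _ _).trans hT) ((le_max_right _ _).trans hT)
  · show F (Nat.findGreatest (fun w => T₀ w ≤ T) T) T
    by_cases h2 : Nat.findGreatest (fun w => T₀ w ≤ T) T = 0
    · rw [h2]
      exact h0 T
    · have h3 := Nat.findGreatest_of_ne_zero (P := fun w => T₀ w ≤ T) rfl h2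
      exact hT₀ _ T h3

theorem size_finite (r B : ℕ) : {e : Fin r → Eqn | ∀ j, (e j).Size B}.Finite := by
  have h1 : {q : ℚ | |q.num| ≤ B ∧ q.den ≤ B}.Finite := by
    refine (((Set.finite_Icc (-(B : ℤ)) B).prod (Set.finite_Iic B)).image fun p : ℤ × ℕ => (p.1 : ℚ) / p.2).subset ?_
    rintro q ⟨hq1, hq2⟩
    exact ⟨(q.num, q.den), ⟨abs_le.1 hq1, hq2⟩, Rat.num_div_den q⟩
  have h2 : {e : Eqn | e.Size B}.Finite := by
    refine ((Set.finite_Iic B).biUnion (t := fun n => (fun α : Fin n → ℚ => (⟨n, α⟩ : Eqn)) ''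
      {α | ∀ j, α j ∈ {q : ℚ | |q.num| ≤ B ∧ q.den ≤ B}}) fun n _ => (Set.Finite.pi' fun _ => h1).image _).subset ?_
    rintro ⟨n, α⟩ ⟨hn, hα⟩
    exact Set.mem_biUnion (show n ∈ Set.Iic B from hn) ⟨α, hα, rfl⟩
  exact Set.Finite.pi' fun _ => h2

theorem bound_ev {r : ℕ} (e : Fin r → Eqn) (he : Good e) (k g w m : ℕ) (hg : 1 ≤ g) (hw : 1 ≤ w) :
    ∀ᶠ T : ℕ in Filter.atTop, Bound k g w m e T (1 / (w : ℝ)) := by
  obtain ⟨c, C, hc, h⟩ := fixed e he k g w m hg
  have hw' : (0 : ℝ) < 1 / w := by positivity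
  have h1 : Filter.Tendsto (fun T : ℕ => C * (T : ℝ) ^ (-c)) Filter.atTop (nhds 0) := by
    have h2 := ((tendsto_rpow_neg_atTop hc).comp tendsto_natCast_atTop_atTop).const_mul C
    rwa [mul_zero] at h2
  filter_upwards [h1.eventually_lt_const hw', Filter.eventually_ge_atTop 1] with T hT hT1 C' Ω
  obtain ⟨h3, h4⟩ := h T hT1 C' Ω
  exact ⟨h3, h4.trans (mul_le_mul_of_nonneg_right hT.le (by positivity))⟩

/-- For `|ξ| > 1` the matrices `Y(1 / ξ)` lie in the torsors `T(1 / ξ)`, for all branches and all admissible equations. For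
every good list `e_1, …, e_r` of hypergeometric equations and all `k`, `g`, `d` and `m` there are `c > 0` and `C` such that
for every complex `m × m` matrix and all complex matrices `Ω_ij` at most `C T^(-c) N^k` of the `N^k` `k`-tuples of algebraic
integers of degree `≤ g` with conjugates of size `≤ T` are exceptional: for all the others with `|ξ_i| > 1` the subtorsors, of
any degree, over all number fields of degree `≤ d` which contain the periods are as large as possible. In particular there is a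
function `w(T)` which tends to infinity such that this number is at most `N^k / w(T)` for all `T`, all good lists of at most
`w(T)` equations of size at most `w(T)` and all parameters `k`, `g`, `d` and `m` of size at most `w(T)`. -/
theorem result :
    (∀ ξ l : ℂ, 1 < ‖ξ‖ → Complex.exp l = ξ → ∀ e : Eqn, e.Admissible → e.Y ξ l ∈ e.T (1 / ξ)) ∧
    (∀ (r : ℕ) (e : Fin r → Eqn), Good e → ∀ k g d m : ℕ, 1 ≤ g →
      ∃ c C : ℝ, 0 < c ∧ ∀ T : ℕ, 1 ≤ T → Bound k g d m e T (C * (T : ℝ) ^ (-c))) ∧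
    ∃ w : ℕ → ℕ, Filter.Tendsto w Filter.atTop Filter.atTop ∧ ∀ T : ℕ, ∀ r ≤ w T, ∀ e : Fin r → Eqn, Good e →
      (∀ j, (e j).Size (w T)) → ∀ k ≤ w T, ∀ g ≤ w T, 1 ≤ g → ∀ m ≤ w T, Bound k g (w T) m e T (1 / (w T : ℝ)) := by
  refine ⟨fun ξ l hξ _ e he => mem_T he hξ, fun r e he k g d m hg => fixed e he k g d m hg, ?_⟩
  · refine diag (F := fun w T => ∀ r ≤ w, ∀ e : Fin r → Eqn, Good e → (∀ j, (e j).Size w) → ∀ k ≤ w, ∀ g ≤ w, 1 ≤ g →
      ∀ m ≤ w, Bound k g w m e T (1 / (w : ℝ))) (fun T r _ e _ _ k _ g hg hg1 => by omega) fun w => ?_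
    rcases Nat.eq_zero_or_pos w with rfl | hw
    · exact Filter.Eventually.of_forall fun T r _ e _ _ k _ g hg hg1 => by omega
    have h1 : ∀ᶠ T : ℕ in Filter.atTop, ∀ r ∈ Set.Iic w, ∀ e ∈ {e : Fin r → Eqn | ∀ j, (e j).Size w}, ∀ k ∈ Set.Iic w,
        ∀ g ∈ Set.Iic w, ∀ m ∈ Set.Iic w, Good e → 1 ≤ g → Bound k g w m e T (1 / (w : ℝ)) := by
      rw [Filter.eventually_all_finite (Set.finite_Iic w)]
      intro r _
      rw [Filter.eventually_all_finite (size_finite r w)]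
      intro e _
      rw [Filter.eventually_all_finite (Set.finite_Iic w)]
      intro k _
      rw [Filter.eventually_all_finite (Set.finite_Iic w)]
      intro g _
      rw [Filter.eventually_all_finite (Set.finite_Iic w)]
      intro m _
      by_cases he : Good e
      · by_cases hg : 1 ≤ g
        · filter_upwards [bound_ev e he k g w m hg hw] with T hT _ _
          exact hT
        · exact Filter.Eventually.of_forall fun T _ h => absurd h hg
      · exact Filter.Eventually.of_forall fun T h => absurd h he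
    filter_upwards [h1] with T hT r hr e he hs k hk g hg hg1 m hm
    exact hT r hr e hs k hk g hg m hm he hg1

end Pool.Agent.Run7.h225.Kept.SubtorsorsAlmostEverywhere
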